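import Pool.Agent.H73.KG.Stmts2
import Pool.Agent.H91.Sym.A1

/-!
# Project KG, module SCL: dilations

`dl r c U w = U (r w) + c`; for `c = - n log r` it is the potential of `x / r`.
-/

set_option autoImplicit false
set_option linter.unusedSectionVars false

open MeasureTheory Set Filter Topology
open scoped ContDiff

namespace Pool.Agent.H73.KG

open Pool.Agent.H84 Pool.Agent.H84.Sym Pool.Agent.H84.Sym.P2x Pool.Agent.H19.KL

section scl

variable {E : Type} [NormedAddCommGroup E] [InnerProductSpace ℝ E]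
    [FiniteDimensional ℝ E] [MeasurableSpace E] [BorelSpace E]

/-- the potential of `x / r` -/
noncomputable def SCL_dl (U : E → ℝ) (r : ℝ) (w : E) : ℝ :=
  U (r • w) + -(Module.finrank ℝ E * Real.log r)

theorem SCL_fd (f : E → ℝ) (hf : Differentiable ℝ f) (r k : ℝ) :
    fderiv ℝ (fun w => f (r • w) + k) = fun w => r • fderiv ℝ f (r • w) := by
  ext1 w
  have h1 : HasFDerivAt (fun w : E => r • w) (r • ContinuousLinearMap.id ℝ E) w :=
    (hasFDerivAt_id w).const_smul r
  have h2 := ((hf (r • w)).hasFDerivAt.comp w h1).add_const k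
  have h3 : HasFDerivAt (fun w => f (r • w) + k) (r • fderiv ℝ f (r • w)) w := by
    refine h2.congr_fderiv ?_
    ext v
    simp
  exact h3.fderiv

theorem SCL_pot {U : E → ℝ} {t C r : ℝ} (hU : Pot U t C) (hr : 0 < r) :
    Pot (SCL_dl U r) (r ^ 2 * t) (r * (C * (1 + r)) + r * |C| * (1 + r)) := by
  have hd : Differentiable ℝ U := hU.smooth.differentiable (by norm_num)
  have hd2 : Differentiable ℝ (fderiv ℝ U) :=
    (hU.smooth.fderiv_right (m := 1) (by norm_num)).differentiable (by norm_num)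
  have h1 : fderiv ℝ (SCL_dl U r) = fun w => r • fderiv ℝ U (r • w) :=
    SCL_fd U hd r _
  have h2 : ∀ x v : E, fderiv ℝ (fderiv ℝ (SCL_dl U r)) x v v =
      r ^ 2 * fderiv ℝ (fderiv ℝ U) (r • x) v v := by
    intro x v
    have e1 : HasFDerivAt (fun w : E => r • w) (r • ContinuousLinearMap.id ℝ E) x :=
      (hasFDerivAt_id x).const_smul r
    have e2 := ((hd2 (r • x)).hasFDerivAt.comp x e1).const_smul r
    have e3 : fderiv ℝ (fun w => r • fderiv ℝ U (r • w)) x =
        r • (fderiv ℝ (fderiv ℝ U) (r • x)).comp (r • ContinuousLinearMap.id ℝ E) := e2.fderiv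
    rw [h1, e3]
    simp only [smul_apply, ContinuousLinearMap.comp_apply, ContinuousLinearMap.id_apply,
      smul_eq_mul, map_smul]
    ring
  refine ⟨?_, by have := hU.pos; positivity, ?_, ?_⟩
  · exact (hU.smooth.comp (contDiff_const_smul r)).add contDiff_const
  · intro x v
    rw [h2]
    have := hU.hess (r • x) v
    nlinarith [sq_nonneg r]
  · intro x
    rw [h1]
    simp only
    rw [norm_smul, Real.norm_eq_abs, abs_of_pos hr]
    have h3 := hU.grad (r • x)
    rw [norm_smul, Real.norm_eq_abs, abs_of_pos hr] at h3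
    have hC : 0 ≤ C * (1 + r * ‖x‖) := (norm_nonneg _).trans h3
    have hC' : 0 ≤ C := by
      by_contra hn
      push Not at hn
      have : 0 < 1 + r * ‖x‖ := by positivity
      nlinarith
    have h4 : C * (1 + r * ‖x‖) ≤ C * (1 + r) * (1 + ‖x‖) := by
      have : 0 ≤ C * (r + ‖x‖) := by positivity
      nlinarith
    have h5 : r * ‖fderiv ℝ U (r • x)‖ ≤ r * (C * (1 + r) * (1 + ‖x‖)) :=
      mul_le_mul_of_nonneg_left (h3.trans h4) hr.le
    have h6 : 0 ≤ r * |C| * (1 + r) * (1 + ‖x‖) := by positivity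
    nlinarith

theorem SCL_int {U : E → ℝ} (hU : Continuous U) {r : ℝ} (hr : 0 < r) (F : E → ℝ) :
    ∫ w, F w ∂(mu (SCL_dl U r)) = ∫ x, F (r⁻¹ • x) ∂(mu U) := by
  have hc : Continuous (SCL_dl U r) := by unfold SCL_dl; fun_prop
  rw [integral_mu hc, integral_mu hU]
  have h1 := Measure.integral_comp_smul (volume : Measure E)
    (fun x => F (r⁻¹ • x) * Real.exp (-U x)) r
  have h2 : (fun w : E => F w * Real.exp (-SCL_dl U r w)) =
      fun w => r ^ Module.finrank ℝ E * (F (r⁻¹ • r • w) * Real.exp (-U (r • w))) := by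
    funext w
    have e1 : r⁻¹ • r • w = w := by rw [smul_smul, inv_mul_cancel₀ hr.ne', one_smul]
    have e2 : Real.exp (-SCL_dl U r w) = r ^ Module.finrank ℝ E * Real.exp (-U (r • w)) := by
      unfold SCL_dl
      have e3 : -(U (r • w) + -(Module.finrank ℝ E * Real.log r)) =
          Module.finrank ℝ E * Real.log r + -U (r • w) := by ring
      rw [e3, Real.exp_add]
      congr 1
      rw [Real.exp_nat_mul, Real.exp_log hr]
    rw [e1, e2]
    ring
  rw [h2, integral_const_mul, h1, smul_eq_mul, ← mul_assoc, abs_of_pos (by positivity),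
    mul_inv_cancel₀ (by positivity), one_mul]

theorem SCL_pp {U : E → ℝ} {t r : ℝ} (h : PP U t) (hr : 0 < r) :
    PP (SCL_dl U r) (r ^ 2 * t) := by
  obtain ⟨⟨C, hU⟩, hp⟩ := h
  refine ⟨⟨_, SCL_pot hU hr⟩, ⟨?_⟩⟩
  have h1 := SCL_int hU.smooth.continuous hr (fun _ => (1:ℝ))
  simp only [integral_const, smul_eq_mul, mul_one] at h1
  have h2 : (mu U).real univ = 1 := by simp [Measure.real]
  rw [h2] at h1
  exact (ENNReal.toReal_eq_one_iff _).1 h1

theorem SCL_cv {U : E → ℝ} (hU : Continuous U) {r : ℝ} (hr : 0 < r) (f g : E → ℝ) :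
    cv (SCL_dl U r) f g = cv U (fun x => f (r⁻¹ • x)) (fun x => g (r⁻¹ • x)) := by
  unfold cv
  rw [SCL_int hU hr, SCL_int hU hr, SCL_int hU hr]

theorem SCL_cv_mul (U f g : E → ℝ) (a b : ℝ) :
    cv U (fun x => a * f x) (fun x => b * g x) = a * b * cv U f g := by
  unfold cv
  have h1 : (fun x => a * f x * (b * g x)) = fun x => a * b * (f x * g x) := by
    funext x; ring
  rw [h1, integral_const_mul, integral_const_mul, integral_const_mul]
  ring

theorem SCL_cov {U : E → ℝ} (hU : Continuous U) {r a : ℝ} (hr : 0 < r) (h : CovLe U a)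
    (hra : r ^ 2 = a) : CovLe (SCL_dl U r) 1 := by
  intro w
  rw [SCL_cv hU hr]
  have h1 : (fun x : E => li w (r⁻¹ • x)) = fun x => r⁻¹ * li w x := by
    funext x
    unfold li
    rw [inner_smul_right]
  rw [h1, SCL_cv_mul]
  have h2 := h w
  have h3 : r⁻¹ * r⁻¹ * cv U (li w) (li w) ≤ r⁻¹ * r⁻¹ * (a * ‖w‖ ^ 2) :=
    mul_le_mul_of_nonneg_left h2 (by positivity)
  refine h3.trans (le_of_eq ?_)
  rw [← hra]
  field_simp

/-- the scaled bound on one space -/
theorem SCL_one {B : ℝ} (hB : ∀ (U : E → ℝ) (t : ℝ), PP U t → CovLe U 1 → ∀ f : E → ℝ,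
    ContDiff ℝ 1 f → (∀ x, ‖fderiv ℝ f x‖ ≤ 1) → cv U f f ≤ B) (U : E → ℝ) (t a M : ℝ)
    (h : PP U t) (ha : 0 < a) (hc : CovLe U a) (hM : 0 ≤ M) (f : E → ℝ) (hf : ContDiff ℝ 1 f)
    (hf' : ∀ x, ‖fderiv ℝ f x‖ ≤ M) : cv U f f ≤ a * M ^ 2 * B := by
  have hU : Continuous U := by
    obtain ⟨⟨C, hU⟩, -⟩ := h
    exact hU.smooth.continuous
  have hd : Differentiable ℝ f := hf.differentiable (by norm_num)
  rcases hM.eq_or_lt with rfl | hM
  · have h1 : ∀ x, fderiv ℝ f x = 0 := fun x => norm_le_zero_iff.1 (hf' x)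
    have h2 : ∀ x, f x = f 0 := fun x => is_const_of_fderiv_eq_zero hd h1 x 0
    have h3 : f = fun _ => f 0 := funext h2
    have h4 : (mu U).real univ = 1 := by
      obtain ⟨-, hp⟩ := h
      simp [Measure.real]
    rw [h3]
    unfold cv
    simp [h4]
  · set r : ℝ := Real.sqrt a with hr
    have hr0 : 0 < r := Real.sqrt_pos.2 ha
    have hr2 : r ^ 2 = a := Real.sq_sqrt ha.le
    have h1 := hB (SCL_dl U r) _ (SCL_pp h hr0) (SCL_cov hU hr0 hc hr2)
      (fun w => (r * M)⁻¹ * f (r • w))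
      (contDiff_const.mul (hf.comp (contDiff_const_smul r))) (fun w => by
        have e1 : HasFDerivAt (fun w : E => r • w) (r • ContinuousLinearMap.id ℝ E) w :=
          (hasFDerivAt_id w).const_smul r
        have e2 := ((hd (r • w)).hasFDerivAt.comp w e1).const_mul ((r * M)⁻¹)
        have e3 : fderiv ℝ (fun w => (r * M)⁻¹ * f (r • w)) w =
            (r * M)⁻¹ • (fderiv ℝ f (r • w)).comp (r • ContinuousLinearMap.id ℝ E) := e2.fderiv
        have e4 : (fderiv ℝ f (r • w)).comp (r • ContinuousLinearMap.id ℝ E) =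
            r • fderiv ℝ f (r • w) := by
          ext v
          simp
        rw [e3, e4, norm_smul, norm_smul, Real.norm_eq_abs, Real.norm_eq_abs,
          abs_of_pos (by positivity), abs_of_pos hr0]
        have e5 := hf' (r • w)
        have e6 : (r * M)⁻¹ * (r * ‖fderiv ℝ f (r • w)‖) ≤ (r * M)⁻¹ * (r * M) := by gcongr
        rw [inv_mul_cancel₀ (by positivity)] at e6
        exact e6)
    rw [SCL_cv hU hr0, SCL_cv_mul] at h1
    have e7 : (fun x : E => f (r • r⁻¹ • x)) = f := by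
      funext x
      rw [smul_smul, mul_inv_cancel₀ hr0.ne', one_smul]
    rw [e7] at h1
    have e8 : a * M ^ 2 * ((r * M)⁻¹ * (r * M)⁻¹ * cv U f f) = cv U f f := by
      rw [← hr2]
      field_simp
    rw [← e8]
    exact mul_le_mul_of_nonneg_left h1 (by positivity)

end scl

theorem scl_thm (h : THCStmt) : SCLStmt := by
  obtain ⟨C, hC, h⟩ := h
  refine ⟨C, hC, ?_⟩
  intro E _ _ _ _ _ U t a M hU ha hc hM f hf hf'
  refine (SCL_one (fun U t => h E U t) U t a M hU ha hc hM f hf hf').trans (le_of_eq ?_)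
  ring

end Pool.Agent.H73.KG
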